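import Mathlib
import Pool.Agent.Run7.h438.PE2

/-! Unramified period-index for abelian varieties: the conjecture holds for at least `9 / 20` of the classes of prime
period `p` on every abelian variety, and for at least `1 - 2 / p` of them if the Picard number is at least two.

Let `A` be an abelian variety of dimension `g` over an algebraically closed field `k` and `p` a prime number different
from the characteristic. The group `H^1(A, μ_p)` has a basis given by functions `z_1, ..., z_(2g)` on `A`, the classes
of `Br(A)` killed by `p` are the sums of symbols `(z_u, z_v)` of degree `p`, and `NS(A) / p` injects into the alternating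
forms over `F_p`: a basis of it gives relations `∑ w_i(u, v) (z_u, z_v) = 0` in `Br(k(A))` which are independent modulo
`p`. The theorem says that at least `9 / 20` of the elements of `Br(A)[p]` are sums of `g - 1` symbols of degree `p`, and
so have an index dividing `p ^ (g - 1)`, as predicted by the conjecture (for all classes); at least half if some
polarisation has a degree prime to `p`; and at least `1 - 2 / p` if the Picard number is at least two. There is no
assumption on `A`, `g` and `p`. The conjecture is open for abelian varieties of dimension `g ≥ 4`; the elementary bound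
for the index is `p ^ g`, and the starting results for this problem treat abelian varieties with elliptic quotients or
real multiplication.

Proof. A class is given by an alternating form `b` over `F_p`, modulo the span `L` of the relations, and it is a sum of
`g - 1` symbols if some `b + η`, `η ∈ L`, is degenerate. Let `N(b)` be the number of these `η`. Since the Pfaffian is
linear in the first row, at least `1 / p` of all forms is degenerate, which bounds the first moment of `N` from below.
A degenerate alternating form has a kernel of dimension at least two, so the number of the forms `b` such that `b + α` and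
`b + β` are degenerate is at most the number of the triples `(b, v, w)` with nonzero `v`, `w` in the kernels, divided by
`(p ^ 2 - 1) ^ 2`; here `v` and `w` are orthogonal for `β - α`, and `b` is determined by a form on a space of dimension
`2 g - 2` if they are independent, while dependent `v`, `w` lie in the kernel of `β - α`, of codimension at least two.
This bounds the second moment of `N` from above, and the number of the `b` with `N(b) ≠ 0` from below, by the inequality
of Cauchy and Schwarz. -/

set_option autoImplicit false
set_option linter.all false

open scoped TensorProduct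

namespace Pool.Agent.Results.MP_43d240_ag.PositiveProportion

open Pool.Agent.Helper18.Br Pool.Agent.H552R3.SymBr Pool.Agent.H552R3.SymPred Pool.Agent.Y109.PI

universe u

/-- Let `K` be an extension of an algebraically closed field `k`, let `ζ ∈ K` be a primitive `p`-th root of unity, `p`
a prime number, and let `z_1, ..., z_(2g)` be nonzero elements of `K`, `g ≥ 1`; `(a, b)` denotes symbols of degree `p`.
Let `w_1, ..., w_r` be integral matrices with `∑ w_i(u, v) (z_u, z_v) = 0` in `Br(K)` such that the alternating matrices
`w_i - w_iᵀ` are linearly independent modulo `p`. Let `S` be the set of all classes generated by symbols with entries in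
the group generated by `kˣ` and the `z_u`, and let `P` be the set of its elements which are sums of `g - 1` symbols of
degree `p` and have an index dividing `p ^ (g - 1)`. Then `S` is finite, and `|P|` is bounded below by an explicit
multiple of `|S|`: it is at least `9 / 20 |S|` if `r = 1`, at least `(1 - 2 / p) |S|` if `r = 2`, and at least
`|S| / 2` if some `w_i - w_iᵀ` has a determinant prime to `p`. -/
theorem result {k K : Type u} [Field k] [IsAlgClosed k] [Field K] [Algebra k K] (p : ℕ) (hp : p.Prime)
    (ζ : K) (hζ : IsPrimitiveRoot ζ p) (g : ℕ) (hg : 0 < g) (z : Fin (2 * g) → Kˣ)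
    (θ : Fin (2 * g) → Fin (2 * g) → BrauerGroup.{u, u} K) (hθ : ∀ u v, IsSym p ζ (z u) (z v) (θ u v))
    (r : ℕ) (w : Fin r → Fin (2 * g) → Fin (2 * g) → ℤ) (hrel : ∀ i, ∏ u, ∏ v, θ u v ^ w i u v = 1)
    (hind : ∀ c : Fin r → ℤ, (∀ u v, (p : ℤ) ∣ ∑ i, c i * (w i u v - w i v u)) → ∀ i, (p : ℤ) ∣ c i)
    (G : Subgroup Kˣ) (hG : G = Subgroup.closure (Set.range (Units.map (algebraMap k K).toMonoidHom) ∪ Set.range z))
    (S : Set (BrauerGroup.{u, u} K))
    (hS : S = Subgroup.closure {γ | ∃ a ∈ G, ∃ b ∈ G, IsSym p ζ a b γ})
    (P : Set (BrauerGroup.{u, u} K))
    (hP : P = {α | α ∈ S ∧ (∃ (s t : Fin (g - 1) → Kˣ) (σ : Fin (g - 1) → BrauerGroup.{u, u} K),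
      (∀ i, IsSym p ζ (s i) (t i) (σ i)) ∧ α = ∏ i, σ i) ∧ IndDvd α (p ^ (g - 1))}) :
    S.Finite ∧
    p ^ r * (p ^ 2 - 1) ^ 2 * S.ncard ≤ p * ((p ^ 2 - 1) ^ 2 + (p ^ r - 1) * (p ^ 3 + p ^ 2 - 1)) * P.ncard ∧
    (r = 1 → 9 * S.ncard ≤ 20 * P.ncard) ∧
    (r = 2 → (p - 2) * S.ncard ≤ p * P.ncard) ∧
    (∀ i, ¬ (p : ℤ) ∣ (Matrix.of fun u v => w i u v - w i v u : Matrix (Fin (2 * g)) (Fin (2 * g)) ℤ).det →
      S.ncard ≤ 2 * P.ncard) := by
  haveI : Fact p.Prime := ⟨hp⟩
  exact Run7.h438.PE.main p ζ hζ g hg z θ hθ r w hrel hind G hG S hS P hP

end Pool.Agent.Results.MP_43d240_ag.PositiveProportion
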