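import Mathlib
import Pool.Agent.Run7.h438.PB4
import Pool.Agent.Run7.h438.PB5

/-! Unramified period-index for abelian varieties, all prime power periods: the index divides `n ^ (g - 1)`.

Let `A` be an abelian variety of dimension `g` over an algebraically closed field `k` and `n` prime to the
characteristic. The group `H^1(A, μ_n)` has a basis given by functions `z_1, ..., z_(2g)` on `A`, the classes in `Br(A)`
killed by `n` are sums of symbols `(z_u, z_v)`, and a divisor class `D` on `A` gives an alternating form
`(u, v) ↦ w(u, v) - w(v, u)` (its first Chern class) and a relation `∑ w(u, v) (z_u, z_v) = 0` in `Br(k(A))`. The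
starting result RealMultiplication shows, for squarefree `n` and `A` with real multiplication by a totally real field of
degree `g` in which the prime divisors of `n` are unramified, that the index of these classes divides `n ^ (g - 1)`, as
predicted by the conjecture.

Here all `n` are treated. The condition at a prime divisor `p` of `n`, `p ^ a` the exact power, is one of the following.

(a) There are `g` classes `D_1, ..., D_g` such that the number of `c` in `F_p^g` for which `∑ c_i D_i` is degenerate
modulo `p` is not divisible by `p`; and if `a > 1`, then some combination of the `D_i`, not all coefficients divisible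
by `p`, has rank two modulo `p ^ a`.

(b) There are classes `D_1, ..., D_g` with intersection number prime to `p`, one of which has rank two modulo `p ^ a`.

(A class has rank two modulo `p ^ a` if its form is `x ∧ y` modulo `p ^ a`: it looks like the fibre class of a map to an
elliptic curve. So (b) holds for all `a` if `NS(A) ⊗ ℤ_p` contains such a class, with an intersection number in `ℤ_pˣ`;
there need not be an elliptic curve in `A`.)

For real multiplication by an order `O` of discriminant prime to `p` the condition holds for all `a` if `O` has a prime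
ideal of degree one over `p` (a ring homomorphism to `ℤ/p`); for `a = 1` no such ideal is needed. So all classes of
period `n` on `A` are sums of `g - 1` symbols of degree `n` and have an index dividing `n ^ (g - 1)`, as soon as all `p` with
`p ^ 2 ∣ n` have a prime factor of degree one in `O`. These are infinitely many primes, for instance all primes which split
completely. (For `g ≤ 3` the conjecture is known for abelian varieties; here `g` is arbitrary and `A` may be simple.)

The last part is a transfer to varieties dominated by such varieties: if `K/F` is a finite extension of degree prime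
to `n` and the index of the restriction to `K` of a class divides `n ^ e`, then so does the index of the class. So the
bounds hold for all smooth projective varieties with a dominant rational map of degree prime to `n` from `A`, for
instance desingularisations of quotients `A / Γ` by finite groups of order prime to `n`.

Proof. A class is given by an alternating form `b` on `ℤ^(2g)`, and we may add combinations of the forms of the `D_i`. If
`E = x ∧ y` has rank two, then `det(b) det(b + t E) = (det(b) + t m)²` for all `t`, where `m` depends on `b` and `E`. If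
there is a translate `b` with `p ∣ det(b)` and `p ∤ det(b + E)`, then it follows that `m` is prime to `p`, so there is a
multiple `t E` such that the Pfaffian of `b + t E` is divisible by `p ^ a`, and by the Frobenius normal form `b + t E` is
the sum of `g - 1` decomposable forms modulo `p ^ a`. The translate exists: in case (a) the number of the degenerate
translates modulo `p` is not divisible by `p` (Chevalley and Warning), so the set of these is not invariant under
translation by `E`; in case (b) the Pfaffian would not depend on the coordinate of `E`, and its mixed difference, the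
intersection number, would be divisible by `p`. For real multiplication the form is `Tr(e x y)`, where `e` is an
idempotent modulo `p ^ a`. -/

set_option autoImplicit false
set_option linter.all false

open scoped TensorProduct

namespace Pool.Agent.Results.MP_43d240_ag.PrimePowerPeriods

open Pool.Agent.Helper18.Br Pool.Agent.H552R3.SymBr Pool.Agent.H552R3.SymPred Pool.Agent.Y109.PI
  Pool.Agent.N394.PX

universe u v

/-- The form `A` has rank two modulo `q`: it is congruent to `x ∧ y`. -/
def RankTwo {I : Type} (q : ℤ) (A : I → I → ℤ) : Prop :=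
  ∃ x y : I → ℤ, ∀ u v, q ∣ A u v - (x u * y v - y u * x v)

/-- The condition on the forms `w_i(u, v) - w_i(v, u)` at the prime `p` for the power `p ^ a`. -/
def Criterion {I κ : Type} [Fintype I] [DecidableEq I] (p a g : ℕ) (w : κ → I → I → ℤ) : Prop :=
  (∃ e : Fin g → κ,
    (¬ p ∣ Nat.card {c : Fin g → ZMod p //
      (∑ i, c i • (Matrix.of fun u v => ((w (e i) u v - w (e i) v u : ℤ) : ZMod p))).det = 0}) ∧
    (a = 1 ∨ ∃ c : Fin g → ℤ, (∃ i, ¬ (p : ℤ) ∣ c i) ∧
      RankTwo ((p : ℤ) ^ a) fun u v => ∑ i, c i * (w (e i) u v - w (e i) v u))) ∨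
  (∃ (τ : Fin (2 * g) ≃ I) (e : Fin g → κ) (i : Fin g),
    (¬ (p : ℤ) ∣ inter g fun i => Matrix.of fun u v => w (e i) (τ u) (τ v) - w (e i) (τ v) (τ u)) ∧
    RankTwo ((p : ℤ) ^ a) fun u v => w (e i) u v - w (e i) v u)

theorem criterion_dec {I κ : Type} [Fintype I] [DecidableEq I] [Fintype κ] (p a g : ℕ) (hp : p.Prime) (ha : 0 < a)
    (hg : 0 < g) (hI : Fintype.card I = 2 * g) (w : κ → I → I → ℤ) (h : Criterion p a g w)
    (b : Matrix I I ℤ) (hb : Alt b) :
    ∃ (c : κ → ℤ) (x y : Fin (g - 1) → I → ℤ), ∀ u v,
      (p : ℤ) ^ a ∣ (b + ∑ i, c i • dif (w i)) u v - (∑ i, wdg (x i) (y i)) u v := by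
  rcases h with ⟨e, h1, h2⟩ | ⟨τ, e, i, h1, x, y, hxy⟩
  · refine Run7.h438.PB.dec_ord p a g hp ha hg hI w e h1 ?_ b hb
    rcases h2 with h2 | ⟨c, hc, x, y, hxy⟩
    · exact Or.inl h2
    · refine Or.inr ⟨c, hc, x, y, fun u v => ?_⟩
      have e1 : (∑ i, c i • dif (w (e i))) u v = ∑ i, c i * (w (e i) u v - w (e i) v u) := by
        simp only [Matrix.sum_apply, Matrix.smul_apply, dif, Matrix.of_apply, smul_eq_mul]
      rw [e1]
      exact hxy u v
  · exact Run7.h438.PB.dec_inter p a g hp ha hg hI w τ e h1 i x y hxy b hb

/-- Let `K` be an extension of an algebraically closed field `k`, let `ζ` be a primitive `n`-th root of unity; `(a, b)`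
denotes symbols of degree `n`.

(1) Let `z_u`, `u ∈ I`, be `2 g` nonzero elements of `K`, `g ≥ 1`, and let `w_i` be integral matrices with
`∑ w_i(u, v) (z_u, z_v) = 0` in `Br(K)`. Suppose that for all prime divisors `p` of `n` the criterion holds, with `p ^ a`
the exact power of `p` which divides `n`. Then every class generated by symbols with entries in the group generated by
`kˣ` and the `z_u` is the sum of `g - 1` symbols of degree `n`, and its index divides `n ^ (g - 1)`.

(2) Real multiplication: let `O` be a commutative ring which is free of rank `g ≥ 1` over `ℤ` with basis `ε_i`, and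
suppose that all prime divisors `p` of `n` are prime to the discriminant of `O`, and that there is a ring homomorphism
from `O` to `ℤ/p` if `p ^ 2 ∣ n`. Let `z_1, ..., z_(2g)` be nonzero elements of `K` with
`∑ Tr(ε_i ε_k ε_l) (z_k, z_(g+l)) = 0` for all `i`. Then the conclusion of (1) holds.

(3) Transfer: let `K/F` be a finite extension of fields of degree prime to `n`, and let `β` be a class generated by
symbols of degree `n` over `F`. If the index of its restriction to `K` divides `n ^ e`, then the index of `β` divides
`n ^ e`. -/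
theorem result :
    (∀ {k K : Type u} [Field k] [IsAlgClosed k] [Field K] [Algebra k K] (n : ℕ) (hn : 0 < n)
      (ζ : K) (hζ : IsPrimitiveRoot ζ n) (g : ℕ) (hg : 0 < g)
      {I κ : Type} [Fintype I] [DecidableEq I] [Fintype κ] (hI : Fintype.card I = 2 * g) (z : I → Kˣ)
      (θ : I → I → BrauerGroup.{u, u} K) (hθ : ∀ u v, IsSym n ζ (z u) (z v) (θ u v))
      (w : κ → I → I → ℤ) (hrel : ∀ i, ∏ u, ∏ v, θ u v ^ w i u v = 1)
      (hw : ∀ p : ℕ, p.Prime → p ∣ n → Criterion p (n.factorization p) g w)
      (G : Subgroup Kˣ) (hG : G = Subgroup.closure (Set.range (Units.map (algebraMap k K).toMonoidHom) ∪ Set.range z))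
      (α : BrauerGroup.{u, u} K) (hα : α ∈ Subgroup.closure {γ | ∃ a ∈ G, ∃ b ∈ G, IsSym n ζ a b γ}),
      (∃ (s t : Fin (g - 1) → Kˣ) (σ : Fin (g - 1) → BrauerGroup.{u, u} K),
        (∀ i, IsSym n ζ (s i) (t i) (σ i)) ∧ α = ∏ i, σ i) ∧ IndDvd α (n ^ (g - 1))) ∧
    (∀ {k K : Type u} [Field k] [IsAlgClosed k] [Field K] [Algebra k K] (n : ℕ) (hn : 0 < n)
      (ζ : K) (hζ : IsPrimitiveRoot ζ n) (g : ℕ) (hg : 0 < g)
      (O : Type v) [CommRing O] (ε : Module.Basis (Fin g) ℤ O)
      (hO : ∀ p : ℕ, p.Prime → p ∣ n → ¬ (p : ℤ) ∣ Algebra.discr ℤ ε ∧ (p ^ 2 ∣ n → Nonempty (O →+* ZMod p)))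
      (z : Fin g ⊕ Fin g → Kˣ)
      (θ : Fin g ⊕ Fin g → Fin g ⊕ Fin g → BrauerGroup.{u, u} K) (hθ : ∀ u v, IsSym n ζ (z u) (z v) (θ u v))
      (hrel : ∀ i, ∏ k, ∏ l, θ (Sum.inl k) (Sum.inr l) ^ Algebra.trace ℤ O (ε i * ε k * ε l) = 1)
      (G : Subgroup Kˣ) (hG : G = Subgroup.closure (Set.range (Units.map (algebraMap k K).toMonoidHom) ∪ Set.range z))
      (α : BrauerGroup.{u, u} K) (hα : α ∈ Subgroup.closure {γ | ∃ a ∈ G, ∃ b ∈ G, IsSym n ζ a b γ}),
      (∃ (s t : Fin (g - 1) → Kˣ) (σ : Fin (g - 1) → BrauerGroup.{u, u} K),
        (∀ i, IsSym n ζ (s i) (t i) (σ i)) ∧ α = ∏ i, σ i) ∧ IndDvd α (n ^ (g - 1))) ∧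
    (∀ {F K : Type u} [Field F] [Field K] [Algebra F K] [FiniteDimensional F K] (n : ℕ) (hn : 0 < n)
      (hc : (Module.finrank F K).Coprime n) (ζ : F) (hζ : IsPrimitiveRoot ζ n) (β : BrauerGroup.{u, u} F)
      (hβ : β ∈ Subgroup.closure {γ | ∃ a b : Fˣ, IsSym n ζ a b γ}) (e : ℕ) (h : IndDvd (res K β) (n ^ e)),
      IndDvd β (n ^ e)) := by
  have hfac : ∀ n p : ℕ, 0 < n → p.Prime → p ∣ n → 0 < n.factorization p := fun n p hn hp hpn =>
    hp.factorization_pos_of_dvd hn.ne' hpn
  refine ⟨?_, ?_, ?_⟩
  · intro k K _ _ _ _ n hn ζ hζ g hg I κ _ _ _ hI z θ hθ w hrel hw G hG α hα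
    exact Run7.h438.PB.main n hn ζ hζ g z θ hθ w hrel (fun p hp hpn b hb =>
      criterion_dec p _ g hp (hfac n p hn hp hpn) hg hI w (hw p hp hpn) b hb) G hG α hα
  · intro k K _ _ _ _ n hn ζ hζ g hg O _ ε hO z θ hθ hrel G hG α hα
    have hI : Fintype.card (Fin g ⊕ Fin g) = 2 * g := by rw [Fintype.card_sum, Fintype.card_fin]; ring
    refine Run7.h438.PB.main n hn ζ hζ g z θ hθ (rmw ε) (fun i => ?_) (fun p hp hpn b hb => ?_) G hG α hα
    · rw [Fintype.prod_sum_type]
      simp only [Fintype.prod_sum_type, rmw, Sum.elim_inl, Sum.elim_inr, zpow_zero, Finset.prod_const_one, one_mul,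
        mul_one]
      exact hrel i
    · haveI : Fact p.Prime := ⟨hp⟩
      obtain ⟨h1, h2⟩ := hO p hp hpn
      refine Run7.h438.PB.dec_ord p _ g hp (hfac n p hn hp hpn) hg hI (rmw ε) id (rm_ord ε p hg h1) ?_ b hb
      by_cases h3 : p ^ 2 ∣ n
      · obtain ⟨φ⟩ := h2 h3
        exact Or.inr (Run7.h438.PB.rm_rank_two ε p h1 φ _ (hfac n p hn hp hpn))
      · left
        have h4 : ¬ 2 ≤ n.factorization p := fun h => h3 ((hp.pow_dvd_iff_le_factorization hn.ne').2 h)
        have h5 := hfac n p hn hp hpn
        omega
  · intro F K _ _ _ _ n hn hc ζ hζ β hβ e h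
    exact Run7.h438.PB.transfer n hn hc ζ hζ β hβ e h

end Pool.Agent.Results.MP_43d240_ag.PrimePowerPeriods
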