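import Mathlib
import Pool.Agent.Run7.h438.PG4

/-! Unramified period-index for abelian varieties: the conjecture holds for a positive proportion of the classes killed by
a prime power `p ^ a`, with a bound which does not depend on `a` and the dimension, on every abelian variety with a
polarisation of degree prime to `p`.

Let `A` be an abelian variety of dimension `g` over an algebraically closed field `k`, `p` a prime number different from
the characteristic and `n = p ^ a`. The group `H^1(A, μ_n)` has a basis given by functions `z_1, ..., z_(2g)` on `A`, the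
classes of `Br(A)` killed by `n` are the sums of symbols `(z_u, z_v)` of degree `n`, and `NS(A)` gives relations
`∑ w_i(u, v) (z_u, z_v) = 0` in `Br(k(A))`. The theorem says: if `A` has a polarisation of degree prime to `p`, then at
least `1 / 2 - 1 / (2 p)` (`p ≥ 5`), `3 / 10` (`p = 3`), `2 / 9` (`p = 2`) of the elements of `Br(A)[p ^ a]` are sums of
`g - 1` symbols of degree `p ^ a` and have an index dividing `p ^ (a (g - 1))`, as predicted by the conjecture (for all
classes); if moreover the Picard number is at least two, then at least `1 - 4 / p` of them. The conjecture is open for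
abelian varieties of dimension `g ≥ 4`; the elementary bound for the index is `p ^ (a g)`. For `a = 1` the file
`PositiveProportion` has better bounds and needs no polarisation of degree prime to `p`; here `a` is arbitrary.

Proof. A class is given by an alternating form `b` modulo `p ^ a`. A degenerate alternating form over `F_p` is called
simple if it has no pair of independent kernel vectors which are orthogonal for the form `ω` of the polarisation; then
its kernel is a plane on which `ω` is nondegenerate. If a translate `b + ∑ c_i w_i` is simple modulo `p`, then Newton's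
method, applied to the multiple of `ω` and a kernel vector, gives a translate modulo `p ^ a` with a unimodular kernel
vector, and by the normal form of Frobenius it is a sum of `g - 1` decomposable forms modulo `p ^ a`. The number of the
simple forms is bounded below by counting pairs of kernel vectors which are not orthogonal, and the number of the classes
with a simple translate by the second moment. -/

set_option autoImplicit false
set_option linter.all false

open scoped TensorProduct

namespace Pool.Agent.Results.MP_43d240_ag.PrimePowerProportion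

open Pool.Agent.Helper18.Br Pool.Agent.H552R3.SymBr Pool.Agent.H552R3.SymPred Pool.Agent.Y109.PI

universe u

/-- Let `K` be an extension of an algebraically closed field `k`, let `ζ ∈ K` be a primitive root of unity of order
`p ^ a`, `p` a prime number, `a ≥ 1`, and let `z_1, ..., z_(2g)` be nonzero elements of `K`, `g ≥ 1`; `(x, y)` denotes
symbols of degree `p ^ a`. Let `w_1, ..., w_r` be integral matrices with `∑ w_i(u, v) (z_u, z_v) = 0` in `Br(K)` such
that for some `i` the determinant of `w_i - w_iᵀ` is not divisible by `p`. Let `S` be the set of all classes generated by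
symbols with entries in the group generated by `kˣ` and the `z_u`, and let `P` be the set of its elements which are sums
of `g - 1` symbols of degree `p ^ a` and have an index dividing `p ^ (a (g - 1))`. Then `S` is finite, and `|P|` is at
least `2 / 9 |S|` if `p = 2`, at least `3 / 10 |S|` if `p = 3` and at least `(1 / 2 - 1 / (2 p)) |S|` if `p ≥ 5`. If
`r = 2` and the `w_i - w_iᵀ` are linearly independent modulo `p`, then `|P| ≥ (1 - 4 / p) |S|`. -/
theorem result {k K : Type u} [Field k] [IsAlgClosed k] [Field K] [Algebra k K] (p a : ℕ) (hp : p.Prime) (ha : 0 < a)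
    (ζ : K) (hζ : IsPrimitiveRoot ζ (p ^ a)) (g : ℕ) (hg : 0 < g) (z : Fin (2 * g) → Kˣ)
    (θ : Fin (2 * g) → Fin (2 * g) → BrauerGroup.{u, u} K) (hθ : ∀ u v, IsSym (p ^ a) ζ (z u) (z v) (θ u v))
    (r : ℕ) (w : Fin r → Fin (2 * g) → Fin (2 * g) → ℤ) (hrel : ∀ i, ∏ u, ∏ v, θ u v ^ w i u v = 1)
    (hw : ∃ i, ¬ (p : ℤ) ∣ (Matrix.of fun u v => w i u v - w i v u : Matrix (Fin (2 * g)) (Fin (2 * g)) ℤ).det)
    (G : Subgroup Kˣ) (hG : G = Subgroup.closure (Set.range (Units.map (algebraMap k K).toMonoidHom) ∪ Set.range z))
    (S : Set (BrauerGroup.{u, u} K))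
    (hS : S = Subgroup.closure {γ | ∃ x ∈ G, ∃ y ∈ G, IsSym (p ^ a) ζ x y γ})
    (P : Set (BrauerGroup.{u, u} K))
    (hP : P = {α | α ∈ S ∧ (∃ (s t : Fin (g - 1) → Kˣ) (σ : Fin (g - 1) → BrauerGroup.{u, u} K),
      (∀ i, IsSym (p ^ a) ζ (s i) (t i) (σ i)) ∧ α = ∏ i, σ i) ∧ IndDvd α ((p ^ a) ^ (g - 1))}) :
    S.Finite ∧ (p = 2 → 2 * S.ncard ≤ 9 * P.ncard) ∧ (p = 3 → 3 * S.ncard ≤ 10 * P.ncard) ∧
      (5 ≤ p → (p - 1) * S.ncard ≤ 2 * p * P.ncard) ∧
      (r = 2 → (∀ c : Fin r → ℤ, (∀ u v, (p : ℤ) ∣ ∑ i, c i * (w i u v - w i v u)) → ∀ i, (p : ℤ) ∣ c i) →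
        (p - 4) * S.ncard ≤ p * P.ncard) := by
  haveI : Fact p.Prime := ⟨hp⟩
  obtain ⟨i0, hi0⟩ := hw
  exact Run7.h438.PG.main p a ha ζ hζ g hg z θ hθ r w hrel i0 hi0 G hG S hS P hP

end Pool.Agent.Results.MP_43d240_ag.PrimePowerProportion
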